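import Pool.Agent.H638.IB.Final

/-! Bodies that are iterated intersection bodies of arbitrarily high order of origin-symmetric
convex bodies. -/

set_option autoImplicit false

open MeasureTheory Set Filter Topology Metric
open scoped Pointwise

namespace Pool.Agent.Results.MP_242fd5_gt.ConvexPreimages

/-- Euclidean `n`-space. -/
abbrev E (n : ℕ) : Type := EuclideanSpace ℝ (Fin n)

/-- The closed unit ball. -/
def unitBall (n : ℕ) : Set (E n) := closedBall 0 1

/-- Origin-symmetric convex bodies: compact, convex, with nonempty interior and `K = -K`. -/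
structure IsSymConvexBody {n : ℕ} (K : Set (E n)) : Prop where
  isCompact : IsCompact K
  convex : Convex ℝ K
  interior_nonempty : (interior K).Nonempty
  neg_mem : ∀ x ∈ K, -x ∈ K

/-- The hyperplane through the origin orthogonal to `u`. -/
noncomputable abbrev hyp {n : ℕ} (u : E n) : Submodule ℝ (E n) := (ℝ ∙ u)ᗮ

/-- Lebesgue measure of the hyperplane `hyp u`. -/
noncomputable abbrev hypVol {n : ℕ} (u : E n) : Measure (hyp u) := volume

/-- The `(n-1)`-dimensional volume of the section of `K` by the hyperplane through the origin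
orthogonal to `u`. -/
noncomputable def secVol {n : ℕ} (K : Set (E n)) (u : E n) : ℝ :=
  (hypVol u {y : hyp u | (y : E n) ∈ K}).toReal

/-- The intersection body: the star body whose radial function is `secVol K` on unit vectors. -/
def interBody {n : ℕ} (K : Set (E n)) : Set (E n) :=
  {x | ∃ u : E n, ‖u‖ = 1 ∧ ∃ r : ℝ, 0 ≤ r ∧ r ≤ secVol K u ∧ x = r • u}

/-- The image of a set under an invertible linear map. -/
def linImage {n : ℕ} (T : E n ≃ₗ[ℝ] E n) (A : Set (E n)) : Set (E n) := T '' A

/-- Centred ellipsoids: images of the closed unit ball under invertible linear maps. -/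
def IsCentredEllipsoid {n : ℕ} (K : Set (E n)) : Prop :=
  ∃ T : E n ≃ₗ[ℝ] E n, K = linImage T (unitBall n)

/-- `K` is the `m`-fold iterated intersection body of an origin-symmetric convex body. -/
def IsConvexIterate {n : ℕ} (m : ℕ) (K : Set (E n)) : Prop :=
  ∃ L : Set (E n), IsSymConvexBody L ∧ K = interBody^[m] L

/-- `K` is the `m`-fold iterated intersection body of a centred ellipsoid. -/
def IsEllipsoidIterate {n : ℕ} (m : ℕ) (K : Set (E n)) : Prop :=
  ∃ L : Set (E n), IsCentredEllipsoid L ∧ K = interBody^[m] L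

theorem body_iff {n : ℕ} (K : Set (E n)) : IsSymConvexBody K ↔ Pool.Agent.H638.IB.Body K :=
  ⟨fun h => ⟨h.1, h.2, h.3, h.4⟩, fun h => ⟨h.1, h.2, h.3, h.4⟩⟩

/-- Let `n ≥ 3`. A set `K` is, for arbitrarily large `m`, the `m`-fold iterated intersection body
of some origin-symmetric convex body if and only if `K` is a centred ellipsoid; and a centred
ellipsoid is, for every `m`, the `m`-fold iterated intersection body of a centred ellipsoid. -/
theorem result {n : ℕ} (hn : 3 ≤ n) (K : Set (E n)) :
    ((∀ M : ℕ, ∃ m, M ≤ m ∧ IsConvexIterate m K) ↔ IsCentredEllipsoid K) ∧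
    (IsCentredEllipsoid K → ∀ m : ℕ, IsEllipsoidIterate m K) := by
  have key := Pool.Agent.H638.IB.main_preimages Pool.Agent.H638.IB.UNI_final
    Pool.Agent.H638.IB.NELL_final Pool.Agent.H638.IB.GS_final Pool.Agent.H638.IB.EPRE_final hn K
  constructor
  · have h1 : (∀ M : ℕ, ∃ m, M ≤ m ∧ IsConvexIterate m K) ↔
        (∀ M : ℕ, ∃ m, M ≤ m ∧ ∃ L : Set (E n), Pool.Agent.H638.IB.Body L ∧
          K = Pool.Agent.H638.IB.IB^[m] L) := by
      simp only [IsConvexIterate, body_iff]
      exact Iff.rfl
    rw [h1, key]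
    exact Iff.rfl
  · intro h m
    obtain ⟨L, h1, h2, h3⟩ := Pool.Agent.H638.IB.ell_preimages Pool.Agent.H638.IB.GS_final
      Pool.Agent.H638.IB.EPRE_final hn K h m
    exact ⟨L, h2, h3⟩

end Pool.Agent.Results.MP_242fd5_gt.ConvexPreimages
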