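import Pool.Agent.H638.KP.Final

/-!
# MP_242fd5_gt: non-ellipsoidal star bodies that are iterated intersection bodies of every order
-/

set_option autoImplicit false

open MeasureTheory Set Metric

namespace Pool.Agent.Results.MP_242fd5_gt.NonEllipsoidal

/-- Euclidean space. -/
abbrev E (n : ℕ) : Type := EuclideanSpace ℝ (Fin n)

/-- The unit sphere. -/
def unitSphere (n : ℕ) : Set (E n) := sphere 0 1

/-- The closed unit ball. -/
def unitBall (n : ℕ) : Set (E n) := closedBall 0 1

/-- The radial function `ρ_K(x) = max {c ≥ 0 : c x ∈ K}`. -/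
noncomputable def radial {n : ℕ} (K : Set (E n)) (x : E n) : ℝ :=
  sSup {c : ℝ | 0 ≤ c ∧ c • x ∈ K}

/-- Star-shaped with respect to the origin. -/
def IsStarShaped {n : ℕ} (K : Set (E n)) : Prop := StarConvex ℝ (0 : E n) K

/-- The radial function is continuous on the unit sphere. -/
def HasContinuousRadial {n : ℕ} (K : Set (E n)) : Prop := ContinuousOn (radial K) (unitSphere n)

/-- Star bodies: compact, star-shaped with respect to the origin, radial function positive and
continuous on the unit sphere. -/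
structure IsStarBody {n : ℕ} (K : Set (E n)) : Prop where
  compact : IsCompact K
  star : IsStarShaped K
  pos : ∀ u ∈ unitSphere n, 0 < radial K u
  cont : HasContinuousRadial K

/-- `L = -L`. -/
def IsCentred {n : ℕ} (L : Set (E n)) : Prop := ∀ x ∈ L, -x ∈ L

/-- The hyperplane through the origin orthogonal to `u`. -/
noncomputable abbrev hyp {n : ℕ} (u : E n) : Submodule ℝ (E n) := (ℝ ∙ u)ᗮ

/-- Lebesgue measure of the hyperplane `hyp u`. -/
noncomputable abbrev hypVol {n : ℕ} (u : E n) : Measure (hyp u) := volume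

/-- The `(n-1)`-dimensional volume of the section of `K` by the hyperplane through the origin
orthogonal to `u`. -/
noncomputable def secVol {n : ℕ} (K : Set (E n)) (u : E n) : ℝ :=
  (hypVol u {y : hyp u | (y : E n) ∈ K}).toReal

/-- The intersection body: the star body whose radial function is `secVol K` on unit vectors. -/
def interBody {n : ℕ} (K : Set (E n)) : Set (E n) :=
  {x | ∃ u : E n, ‖u‖ = 1 ∧ ∃ r : ℝ, 0 ≤ r ∧ r ≤ secVol K u ∧ x = r • u}

/-- Property (P): for every `m ≥ 1` the set `L` is `I^m M` for a star body `M`. -/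
def PropertyP {n : ℕ} (L : Set (E n)) : Prop :=
  ∀ m : ℕ, 1 ≤ m → ∃ M : Set (E n), IsStarBody M ∧ L = interBody^[m] M

/-- The image of a set under an invertible linear map. -/
def linImage {n : ℕ} (T : E n ≃ₗ[ℝ] E n) (A : Set (E n)) : Set (E n) := T '' A

/-- A translate of a set. -/
def translate {n : ℕ} (c : E n) (A : Set (E n)) : Set (E n) := (fun x => c + x) '' A

/-- Ellipsoids (with arbitrary centre). -/
def IsEllipsoid {n : ℕ} (L : Set (E n)) : Prop :=
  ∃ (T : E n ≃ₗ[ℝ] E n) (c : E n), L = translate c (linImage T (unitBall n))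

/-- `|x|²` for `u = (x, y) ∈ ℝ³ × ℝ³`. -/
def sqFirst (u : E 6) : ℝ := u 0 ^ 2 + u 1 ^ 2 + u 2 ^ 2

/-- `|y|²` for `u = (x, y) ∈ ℝ³ × ℝ³`. -/
def sqLast (u : E 6) : ℝ := u 3 ^ 2 + u 4 ^ 2 + u 5 ^ 2

/-- The radial function of `L` equals `r` at the unit vectors `u = (x, y) ∈ ℝ³ × ℝ³` with
`|x| = |y|` and `s` at those with `x = 0` or `y = 0`. -/
def RadialValues (L : Set (E 6)) (r s : ℝ) : Prop :=
  ∀ u ∈ unitSphere 6, (sqFirst u = sqLast u → radial L u = r) ∧
    (sqFirst u = 0 ∨ sqLast u = 0 → radial L u = s)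

theorem starBody_of {n : ℕ} {K : Set (E n)} (h : Pool.Agent.H638.KP.StarBody K) :
    IsStarBody K :=
  ⟨h.compact, h.star, h.pos, h.cont⟩

/-- For every `κ ∈ (1, 2]` there is a centred star body `L` in `ℝ⁶` with property (P) which is not
an ellipsoid; for a constant `r > 0` its radial function equals `r` at the unit vectors
`u = (x, y) ∈ ℝ³ × ℝ³` with `|x| = |y|` and `κ r` at those with `x = 0` or `y = 0`. -/
theorem result (κ : ℝ) (h1 : 1 < κ) (h2 : κ ≤ 2) :
    ∃ L : Set (E 6), IsStarBody L ∧ IsCentred L ∧ PropertyP L ∧ ¬ IsEllipsoid L ∧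
      ∃ r : ℝ, 0 < r ∧ RadialValues L r (κ * r) := by
  obtain ⟨L, hL, hs, hP, hE, r, hr, hu⟩ := Pool.Agent.H638.KP.END_final κ h1 h2
  refine ⟨L, starBody_of hL, ?_, ?_, ?_, r, hr, ?_⟩
  · intro x hx
    rw [hs]
    simpa using hx
  · intro m _
    obtain ⟨M, hM, -, hI⟩ := hP m
    exact ⟨M, starBody_of hM, hI.symm⟩
  · rintro ⟨A, c, h⟩
    refine hE ⟨A, c, ?_⟩
    rw [h]
    unfold translate linImage unitBall
    rw [image_image]
  · intro u hus
    obtain ⟨ha, hb⟩ := hu u hus
    refine ⟨fun h => ha ?_, fun h => hb ?_⟩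
    · unfold sqFirst sqLast at h
      unfold Pool.Agent.H638.KP.PP Pool.Agent.H638.KP.QQ
      rw [h]
    · rcases h with h | h
      · left
        unfold sqFirst at h
        unfold Pool.Agent.H638.KP.PP
        rw [h, Real.sqrt_zero]
      · right
        unfold sqLast at h
        unfold Pool.Agent.H638.KP.QQ
        rw [h, Real.sqrt_zero]

end Pool.Agent.Results.MP_242fd5_gt.NonEllipsoidal
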